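import Pool.Agent.Lib.MP_393cd8_nt.Main

/-!
# The number of `n ≤ N` for which `k/n` has no short expansion

For every positive integer `k` the number of `n ≤ N` such that `k/n` is not a sum of at most three
distinct unit fractions is at most `C N exp (-c (log N) ^ (3/4))`.
-/

set_option autoImplicit false

namespace Pool.Agent.Results.MP_393cd8_nt.ExceptionalThreeQuarters

/-- `k/n` has an Egyptian expansion with at most three terms. -/
def ShortExpansion (k n : ℕ) : Prop :=
  ∃ S : Finset ℕ, S.card ≤ 3 ∧ (∀ m ∈ S, 0 < m) ∧ (k : ℚ) / (n : ℚ) = ∑ m ∈ S, (1 : ℚ) / (m : ℚ)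

/-- The positive integers `n ≤ N` for which `k/n` has no short expansion. -/
def Exceptional (k N : ℕ) : Set ℕ := {n : ℕ | 1 ≤ n ∧ n ≤ N ∧ ¬ ShortExpansion k n}

theorem result : ∀ k : ℕ, 0 < k → ∃ c C : ℝ, 0 < c ∧ 0 < C ∧ ∀ N : ℕ, 2 ≤ N →
    ((Exceptional k N).ncard : ℝ) ≤ C * N * Real.exp (-(c * Real.log N ^ (3 / 4 : ℝ))) := by
  classical
  intro k hk
  obtain ⟨c, C, hc, hC, h⟩ := SES.main k hk
  refine ⟨c, C, hc, hC, fun N hN => ?_⟩
  have h1 : Exceptional k N =
      (((Finset.Icc 1 N).filter (fun n => ¬ SES.Short k n) : Finset ℕ) : Set ℕ) := by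
    ext n
    simp only [Exceptional, Set.mem_ofPred_eq, Finset.coe_filter, Finset.mem_Icc, and_assoc]
    rfl
  rw [h1, Set.ncard_coe_finset]
  convert h N hN

end Pool.Agent.Results.MP_393cd8_nt.ExceptionalThreeQuarters
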